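import Mathlib
import Pool.Agent.Lib.helper14.Bal

set_option autoImplicit false

namespace Pool.Agent.Results.MP_33fb9b_co.BelowBeta

open Pool.Agent.H14LinExt Pool.Agent.H14Bal Finset

/-- The linear extensions of `P`: listings of all elements, each once, in which no element
comes before an element below it. -/
def linExt (P : Type) [PartialOrder P] : Set (List P) :=
  {l | l.Nodup ∧ (∀ x, x ∈ l) ∧ l.Pairwise fun x y => ¬ y < x}

/-- The probability that `x` comes before `y` in a uniformly random linear extension. -/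
noncomputable def prob (P : Type) [PartialOrder P] (x y : P) : ℝ :=
  (Set.ncard {l | l ∈ linExt P ∧ [x, y].Sublist l} : ℝ) / (Set.ncard (linExt P) : ℝ)

/-- The balance constant. -/
noncomputable def delta (P : Type) [PartialOrder P] : ℝ :=
  ⨆ p : P × P, min (prob P p.1 p.2) (prob P p.2 p.1)

/-- The two blocks: the one-element poset, and the three-element poset with one relation
(disjoint union of a two-element chain and a point). -/
def Blk : Bool → Type
  | false => Unit
  | true => Fin 2 ⊕ Unit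

instance instBlk : (b : Bool) → PartialOrder (Blk b)
  | false => inferInstanceAs (PartialOrder Unit)
  | true => inferInstanceAs (PartialOrder (Fin 2 ⊕ Unit))

/-- `P` is isomorphic to a direct (ordinal) sum of `k ≥ 1` blocks. -/
def InD (P : Type) [PartialOrder P] : Prop :=
  ∃ k : ℕ, 1 ≤ k ∧ ∃ s : Fin k → Bool, Nonempty (P ≃o Σₗ i : Fin k, Blk (s i))

theorem blk4 : ∀ (b : Bool) (w0 w1 w2 w3 : Blk b),
    w0 = w1 ∨ w0 = w2 ∨ w0 = w3 ∨ w1 = w2 ∨ w1 = w3 ∨ w2 = w3
  | false => fun _ _ _ _ => Or.inl rfl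
  | true => by
    have h : ∀ w0 w1 w2 w3 : Fin 2 ⊕ Unit,
      w0 = w1 ∨ w0 = w2 ∨ w0 = w3 ∨ w1 = w2 ∨ w1 = w3 ∨ w2 = w3 := by decide
    exact h

theorem same_fst {k : ℕ} {s : Fin k → Bool} (x y : Σₗ i : Fin k, Blk (s i)) (h1 : ¬ x < y)
    (h2 : ¬ y < x) : x.1 = y.1 := by
  rcases lt_trichotomy x.1 y.1 with h | h | h
  · exact absurd (Sigma.Lex.lt_def.2 (Or.inl h)) h1
  · exact h
  · exact absurd (Sigma.Lex.lt_def.2 (Or.inl h)) h2

theorem notD : ¬ InD Pt := by
  rintro ⟨k, -, s, ⟨e⟩⟩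
  have h : ∀ y : Fin 41, ltb 0 y = false → ltb y 0 = false → (e (0 : Fin 41)).1 = (e y).1 := by
    intro y h1 h2
    apply same_fst
    · rw [e.lt_iff_lt, lt_iff, h1]; simp
    · rw [e.lt_iff_lt, lt_iff, h2]; simp
  have h1 := h 20 (by decide +kernel) (by decide +kernel)
  have h2 := h 21 (by decide +kernel) (by decide +kernel)
  have h3 := h 22 (by decide +kernel) (by decide +kernel)
  have hne : ∀ x y : Fin 41, x ≠ y → e x ≠ e y := fun x y hxy h => hxy (e.injective h)
  have n1 := hne 0 20 (by decide)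
  have n2 := hne 0 21 (by decide)
  have n3 := hne 0 22 (by decide)
  have n4 := hne 20 21 (by decide)
  have n5 := hne 20 22 (by decide)
  have n6 := hne 21 22 (by decide)
  generalize e (0 : Fin 41) = z0 at *
  generalize e (20 : Fin 41) = z1 at *
  generalize e (21 : Fin 41) = z2 at *
  generalize e (22 : Fin 41) = z3 at *
  obtain ⟨i0, w0⟩ := z0
  obtain ⟨i1, w1⟩ := z1
  obtain ⟨i2, w2⟩ := z2
  obtain ⟨i3, w3⟩ := z3
  obtain rfl : i0 = i1 := h1
  obtain rfl : i0 = i2 := h2
  obtain rfl : i0 = i3 := h3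
  rcases blk4 _ w0 w1 w2 w3 with h | h | h | h | h | h <;> subst h <;> contradiction

theorem mem_iff (u v : Fin 41) (l : List (Fin 41)) : l ∈ H14LinExt.ext (R u v) 41 univ ↔
    l ∈ linExt Pt ∧ ¬ [v, u].Sublist l := by
  rw [mem_ext _ 41 univ l (by simp)]
  simp only [linExt, List.pairwise_iff_forall_sublist, lt_iff, R,
    Bool.not_eq_true]
  constructor
  · rintro ⟨h1, h2, h3⟩
    exact ⟨⟨h1, fun x => List.mem_toFinset.1 (h2 ▸ mem_univ x), fun h => (h3 h).1⟩,
      fun h => (h3 h).2 ⟨rfl, rfl⟩⟩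
  · rintro ⟨⟨h1, h2, h3⟩, h4⟩
    refine ⟨h1, eq_univ_of_forall fun x => List.mem_toFinset.2 (h2 x), fun h => ⟨h3 h, ?_⟩⟩
    rintro ⟨rfl, rfl⟩
    exact h4 h

theorem total : Set.ncard (linExt Pt) = 1583915616 := by
  have h0 := cnt_eq 0 0
  rw [Fin.val_zero, cnt0] at h0
  have h2 := mem_iff 0 0
  generalize H14LinExt.ext (R 0 0) 41 univ = F at h0 h2
  have h1 : linExt Pt = (F : Set (List (Fin 41))) :=
    Set.ext fun l => ⟨fun h => (h2 l).2 ⟨h, fun h' => not_both _ _ l h.1 h' h'⟩,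
      fun h => ((h2 l).1 h).1⟩
  exact (congrArg Set.ncard h1).trans ((Set.ncard_coe_finset _).trans h0.symm)

theorem prob_le (x y : Fin 41) (h : cnt x y * 1000000 ≤ 348843 * 1583915616) :
    prob Pt x y ≤ 348843 / 1000000 := by
  have h1 : Set.ncard {l | l ∈ linExt Pt ∧ [x, y].Sublist l} ≤ cnt x y := by
    rw [cnt_eq, ← Set.ncard_coe_finset]
    refine Set.ncard_le_ncard (fun l hl => ?_) (Finset.finite_toSet _)
    exact (mem_iff x y l).2 ⟨hl.1, not_both _ _ l hl.1.1 hl.2⟩
  have h2 : ((Set.ncard {l | l ∈ linExt Pt ∧ [x, y].Sublist l} : ℕ) : ℝ) * 1000000 ≤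
      348843 * 1583915616 := by
    exact_mod_cast (Nat.mul_le_mul_right _ h1).trans h
  rw [prob, total, div_le_div_iff₀ (by norm_num) (by norm_num)]
  exact_mod_cast h2

theorem prob_zero (x y : Pt) (h : x = y ∨ y < x) : prob Pt x y ≤ 348843 / 1000000 := by
  have : {l | l ∈ linExt Pt ∧ [x, y].Sublist l} = ∅ := by
    ext l
    simp only [Set.mem_ofPred_eq, Set.mem_empty_iff_false, iff_false, not_and]
    intro hl hs
    rcases h with rfl | h
    · exact not_both _ _ l hl.1 hs hs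
    · exact List.pairwise_iff_forall_sublist.1 hl.2.2 hs h
  rw [prob, this]
  norm_num

theorem result : ∃ (P : Type) (_ : Fintype P) (_ : Nonempty P) (_ : PartialOrder P),
    ¬ InD P ∧ delta P < (5864893 + 27 * Real.sqrt 57) / 16812976 := by
  refine ⟨Pt, inferInstance, ⟨(0 : Fin 41)⟩, inferInstance, notD, ?_⟩
  have hs : (7.5 : ℝ) < Real.sqrt 57 := Real.lt_sqrt_of_sq_lt (by norm_num)
  have : Nonempty (Pt × Pt) := ⟨((0 : Fin 41), (0 : Fin 41))⟩
  refine lt_of_le_of_lt (ciSup_le (c := 348843 / 1000000) ?_) ?_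
  · rintro ⟨x, y⟩
    rcases chk x y with h | h | h | h | h
    · exact (min_le_left _ _).trans (prob_zero x y (Or.inl h))
    · exact (min_le_right _ _).trans (prob_zero y x (Or.inr ((lt_iff _ _).2 h)))
    · exact (min_le_left _ _).trans (prob_zero x y (Or.inr ((lt_iff _ _).2 h)))
    · exact (min_le_left _ _).trans (prob_le x y h)
    · exact (min_le_right _ _).trans (prob_le y x h)
  · rw [div_lt_div_iff₀ (by norm_num) (by norm_num)]
    linarith

end Pool.Agent.Results.MP_33fb9b_co.BelowBeta
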